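import Mathlib

set_option autoImplicit false
set_option linter.unusedSectionVars false

namespace Pool.Agent.V8H61.TX

open Set Filter Topology MeasureTheory

/-- The maximum of a Borel function, continuous along the orbits, over a compact set of group
elements. -/
theorem exists_E {G X : Type} [TopologicalSpace G] [Group G] [IsTopologicalGroup G]
    [PolishSpace G] [MeasurableSpace G] [BorelSpace G] [MeasurableSpace X] [StandardBorelSpace X]
    [MulAction G X] (hm : Measurable fun p : G × X => p.1 • p.2) {e : X → ℝ} (he : Measurable e)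
    (hec : ∀ x, Continuous fun g : G => e (g • x)) {U : Set G} (hU : IsCompact U)
    (hU1 : (1 : G) ∈ U) :
    ∃ E : X → ℝ, Measurable E ∧ (∀ x, Continuous fun g : G => E (g • x)) ∧
      ∀ x, 0 ≤ E x ↔ ∃ u ∈ U, 0 ≤ e (u • x) := by
  have hne : U.Nonempty := ⟨1, hU1⟩
  have : Nonempty U := ⟨⟨1, hU1⟩⟩
  have hbdd : ∀ x, BddAbove ((fun u : G => e (u • x)) '' U) := fun x =>
    (hU.image (hec x)).bddAbove
  refine ⟨fun x => sSup ((fun u : G => e (u • x)) '' U), ?_, ?_, ?_⟩
  · -- measurable
    have hd := TopologicalSpace.denseRange_denseSeq U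
    set d : ℕ → U := TopologicalSpace.denseSeq U with hd'
    refine measurable_of_Ioi fun a => ?_
    have h : (fun x => sSup ((fun u : G => e (u • x)) '' U)) ⁻¹' Ioi a =
        ⋃ n, {x | a < e ((d n : G) • x)} := by
      ext x
      simp only [mem_preimage, mem_Ioi, mem_iUnion, mem_setOf_eq]
      constructor
      · intro h
        obtain ⟨_, ⟨u, hu, rfl⟩, h2⟩ := exists_lt_of_lt_csSup (hne.image _) h
        have hc : Continuous fun v : U => e ((v : G) • x) := (hec x).comp continuous_subtype_val
        have ho : IsOpen {v : U | a < e ((v : G) • x)} := isOpen_lt continuous_const hc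
        obtain ⟨n, hn⟩ := hd.exists_mem_open ho ⟨⟨u, hu⟩, h2⟩
        exact ⟨n, hn⟩
      · rintro ⟨n, hn⟩
        exact hn.trans_le (le_csSup (hbdd x) ⟨d n, (d n).2, rfl⟩)
    rw [h]
    refine MeasurableSet.iUnion fun n => ?_
    have h2 : Measurable fun x : X => e ((d n : G) • x) :=
      he.comp (hm.comp measurable_prodMk_left)
    exact measurableSet_lt measurable_const h2
  · intro x
    have h2 := hU.continuous_sSup (f := fun (g : G) (u : G) => e ((u * g) • x))
      ((hec x).comp (continuous_snd.mul continuous_fst))
    refine h2.congr fun g => ?_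
    simp only [mul_smul]
  · intro x
    obtain ⟨u, hu, hmax⟩ := hU.exists_isMaxOn hne (hec x).continuousOn
    have h1 : sSup ((fun u : G => e (u • x)) '' U) = e (u • x) := by
      apply le_antisymm
      · refine csSup_le (hne.image _) ?_
        rintro _ ⟨v, hv, rfl⟩
        exact hmax hv
      · exact le_csSup (hbdd x) ⟨u, hu, rfl⟩
    simp only [h1]
    constructor
    · intro h
      exact ⟨u, hu, h⟩
    · rintro ⟨v, hv, h⟩
      exact h.trans (hmax hv)

end Pool.Agent.V8H61.TX
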