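import Mathlib

set_option autoImplicit false
set_option linter.unusedSectionVars false

namespace Pool.Agent.V8H61.TX

open Set Filter Topology

/-- The covering step. -/
theorem cover {G W X : Type} [TopologicalSpace G] [Group G] [IsTopologicalGroup G]
    [TopologicalSpace W] [Group W] (q : G →* W) [MulAction G X] {f : ℕ → X → ℝ}
    (hf : ∀ (x : X) (K : Set G), IsCompact K → (∀ g ∈ K, g • x ≠ x) →
        ∃ k, 3 / 4 ≤ f k x ∧ ∀ g ∈ K, f k (g • x) ≤ 0) {U C C' U₀ : Set G} (hC' : IsCompact C')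
    (hC'q : C' ⊆ q.ker) (hU₀ : IsOpen U₀) (h1 : (1 : G) ∈ U₀) {P : ℕ → Set G}
    (hPC : ∀ k, ∀ p ∈ P k, ∀ m ∈ C, p⁻¹ * m * p ∈ C')
    (hPU : ∀ k, ∀ p ∈ P k, ∀ u ∈ U₀ ∩ q.ker, p * u * p⁻¹ ∈ U)
    (hfP : ∀ k, ∀ p ∈ P k, ∀ x, |f k (p • x) - f k x| ≤ 1 / 8) (x : X) :
    ∃ k, ∀ p ∈ P k, 1 / 2 ≤ f k (p • x) ∧
      ∀ m ∈ C, f k (m • p • x) ≤ 1 / 4 ∨ ∃ u ∈ U, u • p • x = m • p • x := by
  classical
  set O : Set G := ⋃ s ∈ {s : G | s • x = x ∧ s ∈ q.ker}, (fun m : G => m * s⁻¹) ⁻¹' U₀ with hO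
  have hOo : IsOpen O := by
    rw [hO]
    exact isOpen_biUnion fun s _ => hU₀.preimage (continuous_mul_const _)
  have hOm : ∀ m ∈ C', (m ∈ O ↔ ∃ u ∈ U₀ ∩ q.ker, u • x = m • x) := by
    intro m hm
    have hmq : m ∈ q.ker := hC'q hm
    constructor
    · intro h
      rw [hO] at h
      simp only [mem_iUnion, mem_preimage, mem_setOf_eq, exists_prop] at h
      obtain ⟨s, ⟨hs, hsq⟩, hu⟩ := h
      refine ⟨m * s⁻¹, ⟨hu, q.ker.mul_mem hmq (q.ker.inv_mem hsq)⟩, ?_⟩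
      rw [mul_smul, inv_smul_eq_iff.2 hs.symm]
    · rintro ⟨u, ⟨hu, huq⟩, h⟩
      rw [hO]
      simp only [mem_iUnion, mem_preimage, mem_setOf_eq, exists_prop]
      refine ⟨u⁻¹ * m, ⟨?_, q.ker.mul_mem (q.ker.inv_mem huq) hmq⟩, ?_⟩
      · rw [mul_smul, ← h, inv_smul_smul]
      · have : m * (u⁻¹ * m)⁻¹ = u := by group
        rw [this]
        exact hu
  have hK : IsCompact (C' ∩ Oᶜ) := hC'.inter_right hOo.isClosed_compl
  obtain ⟨k, hk1, hk2⟩ := hf x (C' ∩ Oᶜ) hK (by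
    rintro g ⟨hg1, hg2⟩ hg3
    exact hg2 ((hOm g hg1).2 ⟨1, ⟨h1, q.ker.one_mem⟩, by rw [one_smul, hg3]⟩))
  refine ⟨k, fun p hp => ⟨?_, fun m hm => ?_⟩⟩
  · have := (abs_le.1 (hfP k p hp x)).1
    linarith
  · have hm' := hPC k p hp m hm
    have hmx : m • p • x = p • (p⁻¹ * m * p) • x := by
      rw [smul_smul, smul_smul]
      congr 1
      group
    by_cases hmO : p⁻¹ * m * p ∈ O
    · right
      obtain ⟨u, hu, hux⟩ := (hOm _ hm').1 hmO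
      refine ⟨p * u * p⁻¹, hPU k p hp u hu, ?_⟩
      rw [hmx, ← hux, smul_smul, smul_smul]
      congr 1
      group
    · left
      have h2 := hk2 _ ⟨hm', hmO⟩
      have h3 := (abs_le.1 (hfP k p hp ((p⁻¹ * m * p) • x))).2
      rw [hmx]
      linarith

end Pool.Agent.V8H61.TX
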